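import Pool.Agent.H36.BK.Stubs

/-! # Project BK, stubs BK01, BK02, BK03 (helper82) -/

set_option autoImplicit false

open Finset
open scoped Classical FinsetFamily

namespace Pool.Agent.H82.BK

open Pool.Agent.H36.BK Pool.Agent.H36.BK.LW

theorem cnt_def (α : Type) [Fintype α] [PartialOrder α] (M : ℕ) (Q : (α → ℕ) → Prop)
    [DecidablePred Q] : cnt α M Q = ((Om α M).filter Q).card := by
  unfold cnt
  congr!

theorem Nx_def (α : Type) [Fintype α] [PartialOrder α] (M : ℕ) (x : α) (j : ℕ) :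
    Nx α M x j = ((Om α M).filter (fun f => f x = j)).card := by
  unfold Nx
  rw [cnt_def]

theorem four : S_four := by
  intro α _ _ M x a b c d hab hac hadbc
  simp only [Nx_def]
  obtain ⟨k, rfl⟩ : ∃ k, b = a + k := ⟨b - a, by omega⟩
  have hd : d = c + k := by omega
  subst hd
  set S := (Om α M).filter (fun f => f x = a) with hS
  set T := (Om α M).filter (fun f => f x = c + k) with hT
  set S' := S.image (fun f : α → ℕ => fun z => f z + k) with hS'
  have hcS : S'.card = S.card := by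
    refine card_image_of_injective _ fun f g h => ?_
    funext z
    have := congrFun h z
    simpa using this
  rw [← hcS]
  refine (le_card_infs_mul_card_sups S' T).trans ?_
  refine Nat.mul_le_mul ?_ ?_
  · refine card_le_card fun h hh => ?_
    obtain ⟨f', hf', g, hg, rfl⟩ := mem_infs.1 hh
    obtain ⟨f, hf, rfl⟩ := mem_image.1 hf'
    obtain ⟨hf1, hf2⟩ := mem_filter.1 hf
    obtain ⟨hg1, hg2⟩ := mem_filter.1 hg
    obtain ⟨hf3, hf4⟩ := mem_Om.1 hf1
    obtain ⟨hg3, hg4⟩ := mem_Om.1 hg1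
    refine mem_filter.2 ⟨mem_Om.2 ⟨fun z => ?_, fun z z' hz => ?_⟩, ?_⟩
    · exact lt_of_le_of_lt (inf_le_right (a := f z + k) (b := g z)) (hg3 z)
    · exact inf_le_inf (Nat.add_le_add_right (hf4 hz) k) (hg4 hz)
    · show min (f x + k) (g x) = a + k
      rw [hf2, hg2]
      omega
  · refine card_le_card_of_injOn (fun h : α → ℕ => fun z => h z - k) ?_ ?_
    · intro h hh
      obtain ⟨f', hf', g, hg, rfl⟩ := mem_sups.1 hh
      obtain ⟨f, hf, rfl⟩ := mem_image.1 hf'
      obtain ⟨hf1, hf2⟩ := mem_filter.1 hf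
      obtain ⟨hg1, hg2⟩ := mem_filter.1 hg
      obtain ⟨hf3, hf4⟩ := mem_Om.1 hf1
      obtain ⟨hg3, hg4⟩ := mem_Om.1 hg1
      refine mem_coe.2 (mem_filter.2 ⟨mem_Om.2 ⟨fun z => ?_, fun z z' hz => ?_⟩, ?_⟩)
      · show max (f z + k) (g z) - k < M
        have := hf3 z
        have := hg3 z
        omega
      · show max (f z + k) (g z) - k ≤ max (f z' + k) (g z') - k
        have := hf4 hz
        have := hg4 hz
        omega
      · show max (f x + k) (g x) - k = c
        rw [hf2, hg2]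
        omega
    · intro h hh h' hh' e
      have hk : ∀ h ∈ S' ⊻ T, ∀ z, k ≤ h z := by
        intro h hh z
        obtain ⟨f', hf', g, hg, rfl⟩ := mem_sups.1 hh
        obtain ⟨f, hf, rfl⟩ := mem_image.1 hf'
        show k ≤ max (f z + k) (g z)
        omega
      funext z
      have h1 := congrFun e z
      have h2 := hk h hh z
      have h3 := hk h' hh' z
      simp only at h1
      omega

theorem fkg : S_fkg := by
  intro α _ _ M x y s t
  simp only [cnt_def]
  refine (le_card_infs_mul_card_sups ((Om α M).filter (fun f => f x ≤ s))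
    ((Om α M).filter (fun f => f y ≤ t))).trans ?_
  refine Nat.mul_le_mul ?_ ?_
  · refine card_le_card fun h hh => ?_
    obtain ⟨f, hf, g, hg, rfl⟩ := mem_infs.1 hh
    obtain ⟨hf1, hf2⟩ := mem_filter.1 hf
    obtain ⟨hg1, hg2⟩ := mem_filter.1 hg
    obtain ⟨hf3, hf4⟩ := mem_Om.1 hf1
    obtain ⟨hg3, hg4⟩ := mem_Om.1 hg1
    refine mem_filter.2 ⟨mem_Om.2 ⟨fun z => ?_, fun z z' hz => ?_⟩, ?_, ?_⟩
    · exact lt_of_le_of_lt (inf_le_right (a := f z) (b := g z)) (hg3 z)
    · exact inf_le_inf (hf4 hz) (hg4 hz)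
    · exact (inf_le_left (a := f x) (b := g x)).trans hf2
    · exact (inf_le_right (a := f y) (b := g y)).trans hg2
  · refine card_le_card fun h hh => ?_
    obtain ⟨f, hf, g, hg, rfl⟩ := mem_sups.1 hh
    obtain ⟨hf1, -⟩ := mem_filter.1 hf
    obtain ⟨hg1, -⟩ := mem_filter.1 hg
    obtain ⟨hf3, hf4⟩ := mem_Om.1 hf1
    obtain ⟨hg3, hg4⟩ := mem_Om.1 hg1
    refine mem_Om.2 ⟨fun z => ?_, fun z z' hz => ?_⟩
    · exact sup_lt_iff.2 ⟨hf3 z, hg3 z⟩
    · exact sup_le_sup (hf4 hz) (hg4 hz)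

/-- log-concave sequences with finite support are unimodal -/
theorem unim_of {N : ℕ → ℕ} {M : ℕ} (hN : ∀ j, M ≤ j → N j = 0)
    (h4 : ∀ a b c d, a ≤ b → a ≤ c → a + d = b + c → N a * N d ≤ N b * N c) :
    Unim fun j => (N j : ℝ) := by
  obtain ⟨m, -, hm⟩ := exists_max_image (range (M + 1)) N ⟨0, by simp⟩
  have hmax : ∀ j, N j ≤ N m := by
    intro j
    rcases Nat.lt_or_ge j (M + 1) with h | h
    · exact hm j (mem_range.2 h)
    · rw [hN j (by omega)]
      exact Nat.zero_le _
  rcases Nat.eq_zero_or_pos (N m) with h0 | h0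
  · have hz : ∀ j, N j = 0 := fun j => by have := hmax j; omega
    exact ⟨0, fun i j _ _ => by simp [hz], fun i j _ _ => by simp [hz]⟩
  refine ⟨m, fun i j hij hjm => ?_, fun i j hmi hij => ?_⟩
  · have h1 := h4 i j (i + m - j) m hij (by omega) (by omega)
    have h2 : N i * N m ≤ N j * N m := h1.trans (Nat.mul_le_mul_left _ (hmax _))
    have h3 : N i ≤ N j := Nat.le_of_mul_le_mul_right h2 h0
    show (N i : ℝ) ≤ N j
    exact_mod_cast h3
  · have h1 := h4 m i (m + j - i) j hmi (by omega) (by omega)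
    have h2 : N m * N j ≤ N i * N m := h1.trans (Nat.mul_le_mul_left _ (hmax _))
    rw [mul_comm (N i)] at h2
    have h3 : N j ≤ N i := Nat.le_of_mul_le_mul_left h2 h0
    show (N j : ℝ) ≤ N i
    exact_mod_cast h3

theorem Nx_zero (α : Type) [Fintype α] [PartialOrder α] {M : ℕ} (x : α) {j : ℕ} (h : M ≤ j) :
    Nx α M x j = 0 := by
  rw [Nx_def, card_eq_zero, filter_eq_empty_iff]
  intro f hf e
  have := (mem_Om.1 hf).1 x
  omega

theorem uni (h : S_four) : S_uni := by
  intro α _ _ M x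
  exact unim_of (fun j hj => Nx_zero α x hj) (fun a b c d => h α M x a b c d)

end Pool.Agent.H82.BK
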