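import Pool.Agent.H36.BK.Stubs

/-!
# Project BK, stub BK13: the maximum of `hh` from its sum
-/

set_option autoImplicit false

open Finset Filter Topology

namespace Pool.Agent.H82.BK

open Pool.Agent.H36.BK

/-- Lipschitz sequences -/
lemma lip_up (M : ℕ) (L : ℝ) (f : ℕ → ℝ) (h : ∀ n, n + 1 < M → |f (n + 1) - f n| ≤ L) (n : ℕ) :
    ∀ k : ℕ, n + k < M → |f (n + k) - f n| ≤ L * k := by
  intro k
  induction k with
  | zero => intro _; simp
  | succ k ih =>
    intro hk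
    have h1 := ih (by omega)
    have h2 := h (n + k) (by omega)
    have e : f (n + (k + 1)) - f n = (f (n + k + 1) - f (n + k)) + (f (n + k) - f n) := by
      rw [← add_assoc]; ring
    rw [e]
    refine (abs_add_le _ _).trans ?_
    push_cast
    linarith

lemma lip_two (M : ℕ) (L : ℝ) (f : ℕ → ℝ) (h : ∀ n, n + 1 < M → |f (n + 1) - f n| ≤ L)
    (hL : 0 ≤ L) (s s' u : ℕ) (hs : s < M) (hs' : s' < M) (h1 : s ≤ s' + u) (h2 : s' ≤ s + u) :
    |f s - f s'| ≤ L * u := by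
  rcases le_total s s' with h3 | h3
  · obtain ⟨k, rfl⟩ := Nat.exists_eq_add_of_le h3
    have h4 := lip_up M L f h s k hs'
    rw [abs_sub_comm]
    refine h4.trans (mul_le_mul_of_nonneg_left ?_ hL)
    exact_mod_cast (by omega : k ≤ u)
  · obtain ⟨k, rfl⟩ := Nat.exists_eq_add_of_le h3
    have h4 := lip_up M L f h s' k hs
    refine h4.trans (mul_le_mul_of_nonneg_left ?_ hL)
    exact_mod_cast (by omega : k ≤ u)

/-- one step of `hh` in the first variable -/
lemma step_s (M : ℕ) (q : ℕ → ℕ → ℝ) (K : ℝ) (hM : 2 ≤ M) (hq : ∀ s t, 0 ≤ q s t)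
    (h1 : ∑ s ∈ range M, ∑ t ∈ range M, q s t = 1)
    (hr : ∀ s, s < M → ∑ b ∈ range M, q s b ≤ K / M)
    (t : ℕ) (ht : t < M) (s : ℕ) (hs : s + 1 < M) :
    |hh M q (s + 1) t - hh M q s t| ≤ K / M := by
  have e : hh M q (s + 1) t - hh M q s t = ∑ b ∈ range (t + 1),
      (q (s + 1) b - (∑ b' ∈ range M, q (s + 1) b') * (∑ a' ∈ range M, q a' b)) := by
    unfold hh
    rw [sum_range_succ _ (s + 1)]
    ring
  have hsub : range (t + 1) ⊆ range M := range_subset_range.2 (by omega)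
  have hp0 : 0 ≤ ∑ b' ∈ range M, q (s + 1) b' := sum_nonneg fun _ _ => hq _ _
  have e2 : ∑ b ∈ range (t + 1),
      (q (s + 1) b - (∑ b' ∈ range M, q (s + 1) b') * (∑ a' ∈ range M, q a' b)) =
      ∑ b ∈ range (t + 1), q (s + 1) b -
        (∑ b' ∈ range M, q (s + 1) b') * ∑ b ∈ range (t + 1), ∑ a' ∈ range M, q a' b := by
    rw [sum_sub_distrib, mul_sum]
  have g1 : ∑ b ∈ range (t + 1), q (s + 1) b ≤ ∑ b ∈ range M, q (s + 1) b :=
    sum_le_sum_of_subset_of_nonneg hsub fun _ _ _ => hq _ _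
  have g2 : 0 ≤ ∑ b ∈ range (t + 1), q (s + 1) b := sum_nonneg fun _ _ => hq _ _
  have g3 : ∑ b ∈ range (t + 1), ∑ a' ∈ range M, q a' b ≤ 1 := by
    rw [← h1, sum_comm (s := range M)]
    exact sum_le_sum_of_subset_of_nonneg hsub fun _ _ _ => sum_nonneg fun _ _ => hq _ _
  have g4 : 0 ≤ ∑ b ∈ range (t + 1), ∑ a' ∈ range M, q a' b :=
    sum_nonneg fun _ _ => sum_nonneg fun _ _ => hq _ _
  have g5 := hr (s + 1) hs
  rw [e, e2, abs_le]
  constructor
  · have : (∑ b' ∈ range M, q (s + 1) b') * ∑ b ∈ range (t + 1), ∑ a' ∈ range M, q a' b ≤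
        (∑ b' ∈ range M, q (s + 1) b') * 1 := mul_le_mul_of_nonneg_left g3 hp0
    linarith
  · have : 0 ≤ (∑ b' ∈ range M, q (s + 1) b') * ∑ b ∈ range (t + 1), ∑ a' ∈ range M, q a' b :=
      mul_nonneg hp0 g4
    linarith

lemma hh_swap (M : ℕ) (q : ℕ → ℕ → ℝ) (s t : ℕ) : hh M q s t = hh M (fun a b => q b a) t s := by
  unfold hh
  rw [sum_comm]
  refine sum_congr rfl fun b _ => sum_congr rfl fun a _ => ?_
  ring

lemma hh_le_one (M : ℕ) (q : ℕ → ℕ → ℝ) (hq : ∀ s t, 0 ≤ q s t)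
    (h1 : ∑ s ∈ range M, ∑ t ∈ range M, q s t = 1) (s t : ℕ) (hs : s < M) (ht : t < M) :
    hh M q s t ≤ 1 := by
  have hsub : range (t + 1) ⊆ range M := range_subset_range.2 (by omega)
  have hsub2 : range (s + 1) ⊆ range M := range_subset_range.2 (by omega)
  calc hh M q s t ≤ ∑ a ∈ range (s + 1), ∑ b ∈ range (t + 1), q a b := by
        unfold hh
        refine sum_le_sum fun a _ => sum_le_sum fun b _ => ?_
        have : 0 ≤ (∑ b' ∈ range M, q a b') * (∑ a' ∈ range M, q a' b) :=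
          mul_nonneg (sum_nonneg fun _ _ => hq _ _) (sum_nonneg fun _ _ => hq _ _)
        linarith
    _ ≤ ∑ a ∈ range (s + 1), ∑ b ∈ range M, q a b :=
        sum_le_sum fun a _ => sum_le_sum_of_subset_of_nonneg hsub fun _ _ _ => hq _ _
    _ ≤ ∑ a ∈ range M, ∑ b ∈ range M, q a b :=
        sum_le_sum_of_subset_of_nonneg hsub2 fun _ _ _ => sum_nonneg fun _ _ => hq _ _
    _ = 1 := h1

/-- **BK13** -/
theorem hmax : S_hmax := by
  intro M q K c lam hM hK hc hq h1 hr hcol hpos hsum hlam hfin s₀ t₀ hs₀ ht₀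
  by_contra hcon
  push Not at hcon
  set η : ℝ := hh M q s₀ t₀ with hη
  have hη0 : 0 < η := lt_of_le_of_lt hlam hcon
  have hη1 : η ≤ 1 := hh_le_one M q hq h1 s₀ t₀ hs₀ ht₀
  have hM0 : (0 : ℝ) < M := by exact_mod_cast (by omega : 0 < M)
  have hK0 : (0 : ℝ) < K := by linarith
  have hL : 0 ≤ K / (M : ℝ) := by positivity
  have h1' : ∑ s ∈ range M, ∑ t ∈ range M, q t s = 1 := by rw [sum_comm]; exact h1
  have S1 : ∀ t, t < M → ∀ s, s + 1 < M → |hh M q (s + 1) t - hh M q s t| ≤ K / M :=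
    fun t ht s hs => step_s M q K hM hq h1 hr t ht s hs
  have S2 : ∀ s, s < M → ∀ t, t + 1 < M → |hh M q s (t + 1) - hh M q s t| ≤ K / M := by
    intro s hs t ht
    rw [hh_swap M q s (t + 1), hh_swap M q s t]
    exact step_s M (fun a b => q b a) K hM (fun a b => hq b a) h1' hcol s hs t ht
  set u : ℕ := ⌊η * M / (4 * K)⌋₊ with hu
  have hx0 : 0 ≤ η * M / (4 * K) := by positivity
  have u1 : (u : ℝ) ≤ η * M / (4 * K) := Nat.floor_le hx0
  have u2 : η * M / (4 * K) < u + 1 := Nat.lt_floor_add_one _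
  have u3 : (u : ℝ) ≤ M / 4 := by
    refine u1.trans ?_
    rw [div_le_div_iff₀ (by positivity) (by norm_num)]
    nlinarith [mul_le_mul hη1 hK (by norm_num) (by norm_num : (0 : ℝ) ≤ 1),
      mul_le_mul_of_nonneg_right hη1 hM0.le, mul_le_mul_of_nonneg_left hK hM0.le]
  have u4 : 4 * u ≤ M := by
    have : (4 : ℝ) * u ≤ M := by linarith
    exact_mod_cast this
  have u5 : u + 1 ≤ M := by omega
  have key : ∀ s t, s < M → t < M → s ≤ s₀ + u → s₀ ≤ s + u → t ≤ t₀ + u → t₀ ≤ t + u →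
      η / 2 ≤ hh M q s t := by
    intro s t hs ht a1 a2 a3 a4
    have b1 := lip_two M (K / M) (fun s => hh M q s t) (S1 t ht) hL s s₀ u hs hs₀ a1 a2
    have b2 := lip_two M (K / M) (fun t => hh M q s₀ t) (S2 s₀ hs₀) hL t t₀ u ht ht₀ a3 a4
    have b3 : K / M * u ≤ η / 4 := by
      have := mul_le_mul_of_nonneg_left u1 hL
      have e : K / M * (η * M / (4 * K)) = η / 4 := by field_simp
      rwa [e] at this
    have b4 := (abs_le.1 b1).1
    have b5 := (abs_le.1 b2).1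
    linarith
  -- the square
  have pick : ∀ x, x < M → ∃ y, y + u < M ∧ y ≤ x ∧ x ≤ y + u := by
    intro x hx
    by_cases h : x + u < M
    · exact ⟨x, h, le_refl _, by omega⟩
    · exact ⟨M - 1 - u, by omega, by omega, by omega⟩
  obtain ⟨s₁, c1, c2, c3⟩ := pick s₀ hs₀
  obtain ⟨t₁, d1, d2, d3⟩ := pick t₀ ht₀
  have sq : ((u : ℝ) + 1) * (((u : ℝ) + 1) * (η / 2)) ≤
      ∑ s ∈ range M, ∑ t ∈ range M, hh M q s t := by
    have hsubs : Ico s₁ (s₁ + (u + 1)) ⊆ range M := by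
      intro x hx; rw [mem_Ico] at hx; rw [mem_range]; omega
    have hsubt : Ico t₁ (t₁ + (u + 1)) ⊆ range M := by
      intro x hx; rw [mem_Ico] at hx; rw [mem_range]; omega
    calc ((u : ℝ) + 1) * (((u : ℝ) + 1) * (η / 2))
        = ∑ s ∈ Ico s₁ (s₁ + (u + 1)), ∑ t ∈ Ico t₁ (t₁ + (u + 1)), η / 2 := by
          rw [sum_const, sum_const, Nat.card_Ico, Nat.card_Ico]
          simp only [Nat.add_sub_cancel_left, nsmul_eq_mul]
          push_cast; ring
      _ ≤ ∑ s ∈ Ico s₁ (s₁ + (u + 1)), ∑ t ∈ Ico t₁ (t₁ + (u + 1)), hh M q s t := by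
          refine sum_le_sum fun s hs => sum_le_sum fun t ht => ?_
          rw [mem_Ico] at hs ht
          exact key s t (by omega) (by omega) (by omega) (by omega) (by omega) (by omega)
      _ ≤ ∑ s ∈ Ico s₁ (s₁ + (u + 1)), ∑ t ∈ range M, hh M q s t := by
          refine sum_le_sum fun s hs => ?_
          refine sum_le_sum_of_subset_of_nonneg hsubt fun t ht _ => ?_
          exact hpos s t (mem_range.1 (hsubs hs)) (mem_range.1 ht)
      _ ≤ ∑ s ∈ range M, ∑ t ∈ range M, hh M q s t := by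
          refine sum_le_sum_of_subset_of_nonneg hsubs fun s hs _ => ?_
          exact sum_nonneg fun t ht => hpos s t (mem_range.1 hs) (mem_range.1 ht)
  have fin1 : (η * M / (4 * K)) * ((η * M / (4 * K)) * (η / 2)) ≤ c * (M : ℝ) ^ 2 := by
    refine le_trans ?_ (sq.trans hsum)
    have h2 : 0 ≤ η / 2 := by linarith
    exact mul_le_mul u2.le (mul_le_mul_of_nonneg_right u2.le h2) (mul_nonneg hx0 h2) (by positivity)
  have fin2 : η ^ 3 ≤ 32 * K ^ 2 * c := by
    have e : (η * M / (4 * K)) * ((η * M / (4 * K)) * (η / 2)) =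
        η ^ 3 / (32 * K ^ 2) * (M : ℝ) ^ 2 := by
      field_simp; ring
    rw [e] at fin1
    have := le_of_mul_le_mul_right fin1 (by positivity : (0 : ℝ) < (M : ℝ) ^ 2)
    rw [div_le_iff₀ (by positivity)] at this
    linarith
  have fin3 : lam ^ 3 < η ^ 3 := pow_lt_pow_left₀ hcon hlam (by norm_num)
  linarith

end Pool.Agent.H82.BK
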