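import Pool.Agent.H36.BK.Stubs

/-! # Project BK, stub BK09: log-concave sequences which are spread out (helper82) -/

set_option autoImplicit false

open Finset

namespace Pool.Agent.H82.BK

open Pool.Agent.H36.BK

section
variable {N : ℕ → ℕ} {M r m : ℕ}

theorem sum_le_T (hN : ∀ j, M ≤ j → N j = 0) (s : Finset ℕ) :
    ∑ j ∈ s, N j ≤ ∑ j ∈ range M, N j := by
  calc ∑ j ∈ s, N j = ∑ j ∈ s.filter (fun j => j < M), N j := by
        rw [sum_filter]
        refine sum_congr rfl fun j _ => ?_
        split_ifs with h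
        · rfl
        · exact hN j (not_lt.1 h)
    _ ≤ _ := sum_le_sum_of_subset fun j hj => mem_range.2 (mem_filter.1 hj).2

theorem right_case (hr : 1 ≤ r) (hN : ∀ j, M ≤ j → N j = 0)
    (h4 : ∀ a b c d, a ≤ b → a ≤ c → a + d = b + c → N a * N d ≤ N b * N c)
    (hmax : ∀ j, N j ≤ N m) (h0 : 0 < N m)
    (hT : ∑ j ∈ range M, N j ≤ 16 * ∑ j ∈ (range M).filter (fun j => m + r ≤ j), N j) :
    N m * r ≤ 16 * ∑ i ∈ range M, N i := by
  set T := ∑ j ∈ range M, N j with hTd
  have hmT : N m ≤ T := by
    have := sum_le_T hN {m}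
    simpa using this
  have hT0 : 0 < T := h0.trans_le hmT
  -- the tail
  have h1 : N m * ∑ j ∈ (range M).filter (fun j => m + r ≤ j), N j ≤ N (m + r) * T := by
    rw [mul_sum]
    calc ∑ j ∈ (range M).filter (fun j => m + r ≤ j), N m * N j
        ≤ ∑ j ∈ (range M).filter (fun j => m + r ≤ j), N (m + r) * N (j - r) := by
          refine sum_le_sum fun j hj => ?_
          have hj' := (mem_filter.1 hj).2
          exact h4 m (m + r) (j - r) j (by omega) (by omega) (by omega)
      _ = N (m + r) * ∑ j ∈ ((range M).filter (fun j => m + r ≤ j)).image (fun j => j - r), N j := by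
          rw [sum_image, mul_sum]
          intro a ha b hb hab
          have ha' := (mem_filter.1 ha).2
          have hb' := (mem_filter.1 hb).2
          simp only at hab
          omega
      _ ≤ N (m + r) * T := Nat.mul_le_mul_left _ (sum_le_T hN _)
  have h2 : N m * T ≤ 16 * N (m + r) * T := by
    calc N m * T ≤ N m * (16 * ∑ j ∈ (range M).filter (fun j => m + r ≤ j), N j) :=
          Nat.mul_le_mul_left _ hT
      _ = 16 * (N m * ∑ j ∈ (range M).filter (fun j => m + r ≤ j), N j) := by ring
      _ ≤ 16 * (N (m + r) * T) := Nat.mul_le_mul_left _ h1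
      _ = _ := by ring
  have h3 : N m ≤ 16 * N (m + r) := Nat.le_of_mul_le_mul_right h2 hT0
  have h5 : r * N (m + r) ≤ T := by
    calc r * N (m + r) = ∑ j ∈ Ico m (m + r), N (m + r) := by
          rw [sum_const, Nat.card_Ico, smul_eq_mul]
          congr 1
          omega
      _ ≤ ∑ j ∈ Ico m (m + r), N j := by
          refine sum_le_sum fun j hj => ?_
          rw [mem_Ico] at hj
          have h6 := h4 m j (2 * m + r - j) (m + r) (by omega) (by omega) (by omega)
          have h7 : N m * N (m + r) ≤ N j * N m := h6.trans (Nat.mul_le_mul_left _ (hmax _))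
          rw [mul_comm (N j)] at h7
          exact Nat.le_of_mul_le_mul_left h7 h0
      _ ≤ T := sum_le_T hN _
  calc N m * r ≤ 16 * N (m + r) * r := Nat.mul_le_mul_right _ h3
    _ = 16 * (r * N (m + r)) := by ring
    _ ≤ 16 * T := Nat.mul_le_mul_left _ h5

theorem left_case (hr : 1 ≤ r) (hN : ∀ j, M ≤ j → N j = 0)
    (h4 : ∀ a b c d, a ≤ b → a ≤ c → a + d = b + c → N a * N d ≤ N b * N c)
    (hmax : ∀ j, N j ≤ N m) (h0 : 0 < N m)
    (hT : ∑ j ∈ range M, N j ≤ 16 * ∑ j ∈ (range M).filter (fun j => j + r ≤ m), N j) :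
    N m * r ≤ 16 * ∑ i ∈ range M, N i := by
  set T := ∑ j ∈ range M, N j with hTd
  have hmT : N m ≤ T := by
    have := sum_le_T hN {m}
    simpa using this
  have hT0 : 0 < T := h0.trans_le hmT
  have hrm : r ≤ m := by
    by_contra hcon
    have : (range M).filter (fun j => j + r ≤ m) = ∅ := by
      rw [filter_eq_empty_iff]
      intro j _
      omega
    rw [this, sum_empty] at hT
    omega
  -- the tail
  have h1 : N m * ∑ j ∈ (range M).filter (fun j => j + r ≤ m), N j ≤ N (m - r) * T := by
    rw [mul_sum]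
    calc ∑ j ∈ (range M).filter (fun j => j + r ≤ m), N m * N j
        ≤ ∑ j ∈ (range M).filter (fun j => j + r ≤ m), N (m - r) * N (j + r) := by
          refine sum_le_sum fun j hj => ?_
          have hj' := (mem_filter.1 hj).2
          rw [mul_comm (N m)]
          exact h4 j (m - r) (j + r) m (by omega) (by omega) (by omega)
      _ = N (m - r) * ∑ j ∈ ((range M).filter (fun j => j + r ≤ m)).image (fun j => j + r), N j := by
          rw [sum_image, mul_sum]
          intro a _ b _ hab
          simp only at hab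
          omega
      _ ≤ N (m - r) * T := Nat.mul_le_mul_left _ (sum_le_T hN _)
  have h2 : N m * T ≤ 16 * N (m - r) * T := by
    calc N m * T ≤ N m * (16 * ∑ j ∈ (range M).filter (fun j => j + r ≤ m), N j) :=
          Nat.mul_le_mul_left _ hT
      _ = 16 * (N m * ∑ j ∈ (range M).filter (fun j => j + r ≤ m), N j) := by ring
      _ ≤ 16 * (N (m - r) * T) := Nat.mul_le_mul_left _ h1
      _ = _ := by ring
  have h3 : N m ≤ 16 * N (m - r) := Nat.le_of_mul_le_mul_right h2 hT0
  have h5 : r * N (m - r) ≤ T := by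
    calc r * N (m - r) = ∑ j ∈ Ioc (m - r) m, N (m - r) := by
          rw [sum_const, Nat.card_Ioc, smul_eq_mul]
          congr 1
          omega
      _ ≤ ∑ j ∈ Ioc (m - r) m, N j := by
          refine sum_le_sum fun j hj => ?_
          rw [mem_Ioc] at hj
          have h6 := h4 (m - r) j (m - r + m - j) m (by omega) (by omega) (by omega)
          have h7 : N (m - r) * N m ≤ N j * N m := h6.trans (Nat.mul_le_mul_left _ (hmax _))
          exact Nat.le_of_mul_le_mul_right h7 h0
      _ ≤ T := sum_le_T hN _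
  calc N m * r ≤ 16 * N (m - r) * r := Nat.mul_le_mul_right _ h3
    _ = 16 * (r * N (m - r)) := by ring
    _ ≤ 16 * T := Nat.mul_le_mul_left _ h5

end

theorem lc : S_lc := by
  intro N M r hr hN h4 hc j
  obtain ⟨m, -, hm⟩ := exists_max_image (range (M + 1)) N ⟨0, by simp⟩
  have hmax : ∀ j, N j ≤ N m := by
    intro j
    rcases Nat.lt_or_ge j (M + 1) with h | h
    · exact hm j (mem_range.2 h)
    · rw [hN j (by omega)]
      exact Nat.zero_le _
  rcases Nat.eq_zero_or_pos (N m) with h0 | h0
  · have : N j = 0 := by have := hmax j; omega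
    rw [this, zero_mul]
    exact Nat.zero_le _
  refine (Nat.mul_le_mul_right r (hmax j)).trans ?_
  have h1 := hc m
  have h2 : ∑ j ∈ (range M).filter (fun j => m + r ≤ j ∨ j + r ≤ m), N j ≤
      ∑ j ∈ (range M).filter (fun j => m + r ≤ j), N j +
      ∑ j ∈ (range M).filter (fun j => j + r ≤ m), N j := by
    rw [filter_or]
    exact sum_union_inter (s₁ := (range M).filter (fun j => m + r ≤ j)) (f := N) ▸
      Nat.le_add_right _ _
  rcases Nat.le_total (∑ j ∈ (range M).filter (fun j => j + r ≤ m), N j)
      (∑ j ∈ (range M).filter (fun j => m + r ≤ j), N j) with h | h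
  · exact right_case hr hN h4 hmax h0 (by omega)
  · exact left_case hr hN h4 hmax h0 (by omega)

end Pool.Agent.H82.BK
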